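import Pool.Agent.L7h60.RL.Ls
import Pool.Agent.L7h81.TW.Stm
import Pool.Agent.L7h15.TW.Split
import Pool.Agent.L7h50.RL.Pow
import Pool.Agent.L7h50.RL.Cyc
import Pool.Agent.L7h50.RL.Rat

/-!
# Project TW (helper81), part LST: the L-series of a quadratic twist and the product over the coset
-/

set_option autoImplicit false
set_option linter.unusedSectionVars false

namespace Pool.Agent.L7h60.TW

open IsDedekindDomain NumberField IsLocalRing Pool.Agent.W189.NF Filter Topology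
open Pool.Agent.H921R2.TatePole (nm two_le_nm)
open Pool.Agent.K4H55.CX (facF efx Law cpow_two ord)
open Pool.Agent.K4H55.BI (IQ gen)
open Pool.Agent.K4H55.BD (low mem_low)
open Pool.Agent.L7h15.BK (cv npt pol pol_diff tpol efx_eq tpol_eq tpol_diff tpol_ne nm_two fin_bad
  HB hb_place loc_good norm_gt)
open Pool.Agent.L7h82.RL
open Pool.Agent.L7h60.RL (cls CG above_prod pol_one pol_ne2)
open Pool.Agent.L7h15.SQ (up dsc comap_K tower_int finite_dual)
open Pool.Agent.L7h81.TW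

section grp

variable {K F M : Type} [Field K] [NumberField K] [Field F] [NumberField F] [Algebra K F] [Field M]
  [NumberField M] [Algebra K M] [Algebra F M] [IsScalarTower K F M] [IsGalois K F] [IsGalois K M]

/-- inflation of characters -/
noncomputable def infl : ((F ≃ₐ[K] F) →* ℂˣ) →* ((M ≃ₐ[K] M) →* ℂˣ) :=
  MonoidHom.compHom' (AlgEquiv.restrictNormalHom (F := K) (K₁ := M) F)

lemma infl_injective : Function.Injective (infl (K := K) (F := F) (M := M)) := by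
  intro ψ ψ' he
  apply MonoidHom.ext
  intro s
  obtain ⟨s', rfl⟩ := AlgEquiv.restrictNormalHom_surjective (F := K) (K₁ := F) M s
  exact congrArg (fun k : (M ≃ₐ[K] M) →* ℂˣ => k s') he

/-- the inflations are the characters which are trivial over `F` -/
lemma infl_iff (ψ : (M ≃ₐ[K] M) →* ℂˣ) :
    ψ ∈ (infl (K := K) (F := F) (M := M)).range ↔ ∀ g : M ≃ₐ[F] M, ψ (up K F g) = 1 := by
  constructor
  · rintro ⟨ψ', rfl⟩ g
    show ψ' (AlgEquiv.restrictNormalHom F (up K F g)) = 1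
    rw [Pool.Agent.L7h15.SQ.res_up, map_one]
  · intro h
    have hker : (AlgEquiv.restrictNormalHom (F := K) (K₁ := M) F).ker ≤ ψ.ker := by
      intro s hs
      rw [MonoidHom.mem_ker] at hs ⊢
      have h1 : ∀ x : F, s (algebraMap F M x) = algebraMap F M x := by
        intro x
        have h2 := AlgEquiv.restrictNormal_commutes s F x
        have h3 : (s.restrictNormal F) x = x := congrArg (fun t : F ≃ₐ[K] F => t x) hs
        rw [h3] at h2
        exact h2.symm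
      let g : M ≃ₐ[F] M := AlgEquiv.ofRingEquiv (f := s.toRingEquiv) h1
      have h4 : up K F g = s := by
        ext x
        rfl
      rw [← h4]
      exact h g
    have hsurj : Function.Surjective (AlgEquiv.restrictNormalHom (F := K) (K₁ := M) F) :=
      AlgEquiv.restrictNormalHom_surjective M
    refine ⟨(AlgEquiv.restrictNormalHom (F := K) (K₁ := M) F).liftOfRightInverse
      (Function.surjInv hsurj) (Function.rightInverse_surjInv hsurj) ⟨ψ, hker⟩, ?_⟩
    apply MonoidHom.ext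
    intro g
    exact MonoidHom.liftOfRightInverse_comp_apply _ _ (Function.rightInverse_surjInv hsurj) ⟨ψ, hker⟩ g

end grp

/-- the places of `M` above `v`, grouped by the places of `F` -/
lemma group_places {K F M : Type} [Field K] [NumberField K] [Field F] [NumberField F] [Algebra K F]
    [Field M] [NumberField M] [Algebra K M] [Algebra F M] [IsScalarTower K F M]
    [IsGalois K F] [IsGalois K M] (v : HeightOneSpectrum (𝓞 K))
    [hF : Finite {u : HeightOneSpectrum (𝓞 F) //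
      u.asIdeal.comap (algebraMap (𝓞 K) (𝓞 F)) = v.asIdeal}]
    [hM : Finite {w : HeightOneSpectrum (𝓞 M) //
      w.asIdeal.comap (algebraMap (𝓞 K) (𝓞 M)) = v.asIdeal}]
    (f : HeightOneSpectrum (𝓞 M) → ℂ) :
    ∏ᶠ w : {w : HeightOneSpectrum (𝓞 M) //
      w.asIdeal.comap (algebraMap (𝓞 K) (𝓞 M)) = v.asIdeal}, f w.1 =
    ∏ᶠ u : {u : HeightOneSpectrum (𝓞 F) //
      u.asIdeal.comap (algebraMap (𝓞 K) (𝓞 F)) = v.asIdeal},
      ∏ᶠ w : {w : HeightOneSpectrum (𝓞 M) //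
        w.asIdeal.comap (algebraMap (𝓞 F) (𝓞 M)) = u.1.asIdeal}, f w.1 := by
  classical
  have hi : ∀ u : {u : HeightOneSpectrum (𝓞 F) //
      u.asIdeal.comap (algebraMap (𝓞 K) (𝓞 F)) = v.asIdeal},
      Finite {w : HeightOneSpectrum (𝓞 M) //
        w.asIdeal.comap (algebraMap (𝓞 F) (𝓞 M)) = u.1.asIdeal} := by
    intro u
    refine Finite.of_injective (β := {w : HeightOneSpectrum (𝓞 M) //
      w.asIdeal.comap (algebraMap (𝓞 K) (𝓞 M)) = v.asIdeal})
      (fun w => ⟨w.1, comap_K F u.2 w.2⟩) ?_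
    intro w w' h
    exact Subtype.ext (Subtype.mk.inj h)
  have hlow : ∀ w : HeightOneSpectrum (𝓞 M), w.asIdeal.comap (algebraMap (𝓞 K) (𝓞 M)) = v.asIdeal →
      (low (K := F) w).asIdeal.comap (algebraMap (𝓞 K) (𝓞 F)) = v.asIdeal := by
    intro w h1
    rw [tower_int (K := K) F (F := M), ← Ideal.comap_comap] at h1
    exact h1
  let e : (Σ u : {u : HeightOneSpectrum (𝓞 F) //
      u.asIdeal.comap (algebraMap (𝓞 K) (𝓞 F)) = v.asIdeal},
      {w : HeightOneSpectrum (𝓞 M) //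
        w.asIdeal.comap (algebraMap (𝓞 F) (𝓞 M)) = u.1.asIdeal}) ≃
      {w : HeightOneSpectrum (𝓞 M) //
        w.asIdeal.comap (algebraMap (𝓞 K) (𝓞 M)) = v.asIdeal} :=
    { toFun := fun x => ⟨x.2.1, comap_K F x.1.2 x.2.2⟩
      invFun := fun w => ⟨⟨low (K := F) w.1, hlow w.1 w.2⟩, ⟨w.1, rfl⟩⟩
      left_inv := by
        rintro ⟨⟨u, hu⟩, ⟨w, hw⟩⟩
        have hv : low (K := F) w = u := HeightOneSpectrum.ext hw
        subst hv
        rfl
      right_inv := fun w => rfl }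
  have : Fintype {u : HeightOneSpectrum (𝓞 F) //
      u.asIdeal.comap (algebraMap (𝓞 K) (𝓞 F)) = v.asIdeal} := Fintype.ofFinite _
  have : Fintype {w : HeightOneSpectrum (𝓞 M) //
      w.asIdeal.comap (algebraMap (𝓞 K) (𝓞 M)) = v.asIdeal} := Fintype.ofFinite _
  have hft : ∀ u : {u : HeightOneSpectrum (𝓞 F) //
      u.asIdeal.comap (algebraMap (𝓞 K) (𝓞 F)) = v.asIdeal},
      Fintype {w : HeightOneSpectrum (𝓞 M) //
        w.asIdeal.comap (algebraMap (𝓞 F) (𝓞 M)) = u.1.asIdeal} := fun u => Fintype.ofFinite _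
  rw [finprod_eq_prod_of_fintype, finprod_eq_prod_of_fintype, ← Equiv.prod_comp e,
    Fintype.prod_sigma]
  refine Finset.prod_congr rfl fun u _ => ?_
  rw [finprod_eq_prod_of_fintype]
  rfl

open Classical in
/-- **LST** -/
theorem s_LST (hTPT : S_TPT) : S_LST := by
  intro hLOC K F M _ _ _ _ _ _ _ _ _ _ _ _ _ _ σ δ n a b c hIQ hΔ hloc hab hdeg d t hd0F htd hty
    𝔣 χ hR A hA Gp gp1 gp2
  have hFM : IsGalois F M := IsGalois.tower_top_of_isGalois K F M
  obtain ⟨hcf, hlw⟩ := cls hab hR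
  -- the characters of `F`
  have habF : ∀ s t : F ≃ₐ[K] F, s * t = t * s := by
    intro s t
    obtain ⟨s', rfl⟩ := AlgEquiv.restrictNormalHom_surjective (F := K) (K₁ := F) M s
    obtain ⟨t', rfl⟩ := AlgEquiv.restrictNormalHom_surjective (F := K) (K₁ := F) M t
    rw [← map_mul, hab, map_mul]
  have hfinF := finite_dual habF
  have : Fintype ((F ≃ₐ[K] F) →* ℂˣ) := Fintype.ofFinite _
  have hRF : ∀ ψ : (F ≃ₐ[K] F) →* ℂˣ, RC ψ (𝔣 (infl (M := M) ψ)) (χ (infl (M := M) ψ)) :=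
    fun ψ => dsc F (hR (infl (M := M) ψ))
  obtain ⟨hcfF, hlwF⟩ := cls habF hRF
  have hAc : Aᶜ = Finset.univ.image (infl (K := K) (F := F) (M := M)) := by
    ext ψ
    rw [Finset.mem_compl, hA ψ, Finset.mem_image]
    have h1 := infl_iff (K := K) (F := F) (M := M) ψ
    constructor
    · intro h
      push Not at h
      obtain ⟨ψ', hψ'⟩ := h1.2 h
      exact ⟨ψ', Finset.mem_univ _, hψ'⟩
    · rintro ⟨ψ', -, hψ'⟩ ⟨g, hg⟩
      exact hg (h1.1 ⟨ψ', hψ'⟩ g)
  have hAstab : ∀ g ∈ A, ∀ k : ℕ, k.Coprime (Nat.card ((M ≃ₐ[K] M) →* ℂˣ)) → g ^ k ∈ A := by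
    intro g hg k hk
    by_contra h1
    have h2 : g ^ k ∈ (infl (K := K) (F := F) (M := M)).range := by
      have h3 : g ^ k ∈ Aᶜ := Finset.mem_compl.2 h1
      rw [hAc, Finset.mem_image] at h3
      obtain ⟨ψ', -, h4⟩ := h3
      exact ⟨ψ', h4⟩
    obtain ⟨m, hm⟩ := exists_pow_eq_self_of_coprime
      (Nat.Coprime.coprime_dvd_right (orderOf_dvd_natCard g) hk)
    have h5 : g ∈ (infl (K := K) (F := F) (M := M)).range := by
      rw [← hm]
      exact Subgroup.pow_mem _ h2 m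
    obtain ⟨ψ', hψ'⟩ := h5
    have h6 : g ∈ Aᶜ := by
      rw [hAc, Finset.mem_image]
      exact ⟨ψ', Finset.mem_univ _, hψ'⟩
    exact Finset.mem_compl.1 h6 hg
  -- the number `D`
  obtain ⟨D, hD0, e, he⟩ : ∃ D : 𝓞 K, D ≠ 0 ∧ ∃ e : 𝓞 F, algebraMap (𝓞 K) (𝓞 F) D = d * e := by
    have h1 : (Ideal.span {d} : Ideal (𝓞 F)) ≠ ⊥ := fun h => hd0F (Ideal.span_singleton_eq_bot.1 h)
    have h2 : (Ideal.span {d} : Ideal (𝓞 F)).comap (algebraMap (𝓞 K) (𝓞 F)) ≠ ⊥ :=
      Ideal.IsIntegral.comap_ne_bot (𝓞 K) h1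
    obtain ⟨D, hD, hD0⟩ := Submodule.exists_mem_ne_zero_of_ne_bot h2
    obtain ⟨e, he⟩ := Ideal.mem_span_singleton.1 (Ideal.mem_comap.1 hD)
    exact ⟨D, hD0, e, he⟩
  set d1 : 𝓞 K := 2 * (4 * a ^ 3 + 27 * b ^ 2) with hd1
  have hd10 : d1 ≠ 0 := mul_ne_zero two_ne_zero hΔ
  set d' : 𝓞 K := d1 * (2 * D) with hd'
  have hd0 : d' ≠ 0 := mul_ne_zero hd10 (mul_ne_zero two_ne_zero hD0)
  set E : WeierstrassCurve F := cv (algebraMap K F (a : K) * (d : F) ^ 2)
    (algebraMap K F (b : K) * (d : F) ^ 3) with hEd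
  -- the characters
  have hch : ∀ ψ, PK (𝔣 ψ) (χ ψ) := fun ψ => (hR ψ).ch
  obtain ⟨-, hpow, -⟩ := L7h50.RL.s_POW K ((M ≃ₐ[K] M) →* ℂˣ) 𝔣 χ hch hcf.mul
  have hchn : ∀ ψ x, ‖χ ψ x‖ ≤ 1 := by
    intro ψ x
    by_cases h0 : χ ψ x = 0
    · rw [h0, norm_zero]
      exact zero_le_one
    · exact (Complex.norm_eq_one_of_pow_eq_one (hpow ψ x h0) Nat.card_pos.ne').le
  have hrat := (L7h50.RL.s_RAT L7h50.RL.s_CYC L7h50.RL.s_POW K ((M ≃ₐ[K] M) →* ℂˣ) 𝔣 χ hch hcf.mul A
    hAstab).2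
  -- the bounds
  have hHK : ∀ v : HeightOneSpectrum (𝓞 K), HB (aV (cv (a : K) (b : K)) v)
      (eV (cv (a : K) (b : K)) v) (nm v) := by
    intro v
    refine hb_place _ v ?_
    by_cases h2 : (2 : 𝓞 K) ∈ v.asIdeal
    · exact Or.inr (nm_two hIQ.deg h2)
    · exact Or.inl h2
  set G : ℂ → ℂ := fun s => ∏ ψ ∈ A, Gp ψ s with hG
  have g1 : Differentiable ℂ G := Differentiable.fun_finsetProd fun ψ hψ => gp1 ψ hψ
  have g2 : ∀ s : ℂ, 2 < s.re → HasProd (fun v : HeightOneSpectrum (𝓞 K) =>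
        ∏ ψ ∈ A, efx n c (χ ψ) s v) (G s) := by
    intro s hs
    exact hasProd_prod fun ψ hψ => gp2 ψ hψ s hs
  -- the factors
  set Ab : HeightOneSpectrum (𝓞 K) → Type := fun v => {u : HeightOneSpectrum (𝓞 F) //
    u.asIdeal.comap (algebraMap (𝓞 K) (𝓞 F)) = v.asIdeal} with hAb
  have hAfin : ∀ v, Finite (Ab v) := by
    intro v
    have h1 := hlwF.card v
    refine Nat.finite_of_card_ne_zero fun h0 => ?_
    have h2 : Nat.card {u : HeightOneSpectrum (𝓞 F) //
      u.asIdeal.comap (algebraMap (𝓞 K) (𝓞 F)) = v.asIdeal} = 0 := h0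
    rw [h2, zero_mul] at h1
    have h3 : Nonempty {g // (fun ψ : (F ≃ₐ[K] F) →* ℂˣ => χ (infl (M := M) ψ)) g (gen v) ≠ 0} :=
      ⟨⟨1, by
        have h5 : χ (infl (M := M) (1 : (F ≃ₐ[K] F) →* ℂˣ)) (gen v) = 1 := hcfF.triv (gen v)
        show χ (infl (M := M) (1 : (F ≃ₐ[K] F) →* ℂˣ)) (gen v) ≠ 0
        rw [h5]
        exact one_ne_zero⟩⟩
    have h4 : 0 < Nat.card {g // (fun ψ : (F ≃ₐ[K] F) →* ℂˣ => χ (infl (M := M) ψ)) g (gen v) ≠ 0} :=
      Nat.card_pos
    exact absurd h1.symm h4.ne'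
  have hMfin : ∀ v : HeightOneSpectrum (𝓞 K), Finite {w : HeightOneSpectrum (𝓞 M) //
      w.asIdeal.comap (algebraMap (𝓞 K) (𝓞 M)) = v.asIdeal} := by
    intro v
    have h1 := hlw.card v
    refine Nat.finite_of_card_ne_zero fun h0 => ?_
    rw [h0, zero_mul] at h1
    have h3 : Nonempty {g // χ g (gen v) ≠ 0} := ⟨⟨1, by rw [hcf.triv]; exact one_ne_zero⟩⟩
    have h4 : 0 < Nat.card {g // χ g (gen v) ≠ 0} := Nat.card_pos
    omega
  have hAft : ∀ v, Fintype (Ab v) := fun v => Fintype.ofFinite _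
  -- the comparison at the good places
  have hne : ∀ (ψ : (M ≃ₐ[K] M) →* ℂˣ) (v : HeightOneSpectrum (𝓞 K)) (s : ℂ), 1 / 2 < s.re →
      efx n c (χ ψ) s v ≠ 0 := by
    intro ψ v s hs
    rw [efx_eq]
    exact inv_ne_zero (tpol_ne (hchn ψ _) hs (hloc v).1 (hloc v).2 (hHK v))
  have hkey : ∀ (v : HeightOneSpectrum (𝓞 K)) (s : ℂ), d' ∉ v.asIdeal → 1 / 2 < s.re →
      ∏ ψ ∈ A, efx n c (χ ψ) s v = ∏ u : Ab v, (pol E u.1 s)⁻¹ := by
    intro v s hv hs
    have hv1 : d1 ∉ v.asIdeal := fun h => hv (v.asIdeal.mul_mem_right _ h)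
    have hv2 : 2 * D ∉ v.asIdeal := fun h => hv (v.asIdeal.mul_mem_left _ h)
    have hud : ∀ u : Ab v, 2 * d ∉ u.1.asIdeal := by
      intro u hu
      apply hv2
      rw [← u.2, Ideal.mem_comap, map_mul, he, map_ofNat, ← mul_assoc]
      exact u.1.asIdeal.mul_mem_right _ hu
    have e1 := above_prod (n := n) (c := c) hcf hlw v s
    rw [group_places (F := F) v (fun w => facF n c v (Ideal.absNorm w.asIdeal) s)] at e1
    have e2 := above_prod (n := n) (c := c) hcfF hlwF v s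
    have e3 : ∀ u : Ab v, ∏ᶠ w : {w : HeightOneSpectrum (𝓞 M) //
        w.asIdeal.comap (algebraMap (𝓞 F) (𝓞 M)) = u.1.asIdeal},
        facF n c v (Ideal.absNorm w.1.asIdeal) s =
        facF n c v (Ideal.absNorm u.1.asIdeal) s * (pol E u.1 s)⁻¹ := by
      intro u
      exact hLOC hTPT L7h15.TW.s_SPLIT K F M n a b c hloc hdeg d t htd hty v u.1 u.2 hv1 (hud u)
        ⟨_, hlwF.norm v u.1 u.2⟩ s
    have e4 : ∏ᶠ u : {u : HeightOneSpectrum (𝓞 F) //
        u.asIdeal.comap (algebraMap (𝓞 K) (𝓞 F)) = v.asIdeal},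
        ∏ᶠ w : {w : HeightOneSpectrum (𝓞 M) //
          w.asIdeal.comap (algebraMap (𝓞 F) (𝓞 M)) = u.1.asIdeal},
          facF n c v (Ideal.absNorm w.1.asIdeal) s =
        ∏ u : Ab v, (facF n c v (Ideal.absNorm u.1.asIdeal) s * (pol E u.1 s)⁻¹) := by
      refine (finprod_eq_prod_of_fintype (α := Ab v) _).trans ?_
      exact Finset.prod_congr rfl fun u _ => e3 u
    have e5 : ∏ᶠ u : {u : HeightOneSpectrum (𝓞 F) //
        u.asIdeal.comap (algebraMap (𝓞 K) (𝓞 F)) = v.asIdeal},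
        facF n c v (Ideal.absNorm u.1.asIdeal) s =
        ∏ u : Ab v, facF n c v (Ideal.absNorm u.1.asIdeal) s :=
      finprod_eq_prod_of_fintype (α := Ab v) _
    rw [e4, Finset.prod_mul_distrib, ← e5, e2] at e1
    have e6 : ∏ ψ ∈ Aᶜ, efx n c (χ ψ) s v =
        ∏ ψ : (F ≃ₐ[K] F) →* ℂˣ, efx n c (χ (infl (M := M) ψ)) s v := by
      rw [hAc, Finset.prod_image fun x _ y _ h => infl_injective h]
    rw [← Finset.prod_mul_prod_compl A, e6, mul_comm] at e1
    refine (mul_right_cancel₀ ?_ e1).symm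
    exact Finset.prod_ne_zero_iff.2 fun ψ _ => hne _ v s hs
  set B : Finset (HeightOneSpectrum (𝓞 K)) := (fin_bad hd0).toFinset with hB
  have hBm : ∀ v, v ∈ B ↔ d' ∈ v.asIdeal := fun v => by
    rw [hB, Set.Finite.mem_toFinset]
    rfl
  set P : ℂ → ℂ := fun s => ∏ v ∈ B, ∏ u : Ab v, pol E u.1 s with hPd
  set Q : ℂ → ℂ := fun s => ∏ v ∈ B, ∏ ψ ∈ A, tpol n c (χ ψ (gen v)) v s with hQd
  have hPdiff : Differentiable ℂ P := by
    refine Differentiable.fun_finsetProd fun v _ => Differentiable.fun_finsetProd fun u _ => ?_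
    exact pol_diff E u.1
  have hQdiff : Differentiable ℂ Q := by
    refine Differentiable.fun_finsetProd fun v _ => Differentiable.fun_finsetProd fun ψ _ => ?_
    exact tpol_diff _ v (hloc v).1 (hloc v).2
  have hPne : ∀ s : ℂ, 2 < s.re → P s ≠ 0 := fun s hs =>
    Finset.prod_ne_zero_iff.2 fun v _ => Finset.prod_ne_zero_iff.2 fun u _ => pol_ne2 E u.1 hs
  -- the values at `1`
  obtain ⟨rP, hrP0, hrP⟩ : ∃ r : ℚ, r ≠ 0 ∧ P 1 = (r : ℂ) := by
    choose r hr0 hr using fun u : HeightOneSpectrum (𝓞 F) => pol_one E u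
    refine ⟨∏ v ∈ B, ∏ u : Ab v, r u.1, Finset.prod_ne_zero_iff.2 fun v _ =>
      Finset.prod_ne_zero_iff.2 fun u _ => hr0 u.1, ?_⟩
    rw [hPd]
    simp only [hr]
    push_cast
    rfl
  have hP1 : P 1 ≠ 0 := by rw [hrP]; exact_mod_cast hrP0
  have hQ1 : Q 1 ≠ 0 :=
    Finset.prod_ne_zero_iff.2 fun v _ => Finset.prod_ne_zero_iff.2 fun ψ _ =>
      tpol_ne (hchn ψ _) (by norm_num) (hloc v).1 (hloc v).2 (hHK v)
  obtain ⟨rQ, hrQ⟩ : ∃ r : ℚ, Q 1 = (r : ℂ) := by
    have hv : ∀ v : HeightOneSpectrum (𝓞 K), ∃ r : ℚ,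
        ∏ ψ ∈ A, tpol n c (χ ψ (gen v)) v 1 = (r : ℂ) := by
      intro v
      have hqv : ((Ideal.absNorm v.asIdeal : ℕ) : ℂ) ≠ 0 := by
        have := norm_gt v
        exact_mod_cast (by omega : Ideal.absNorm v.asIdeal ≠ 0)
      set q : ℕ := Ideal.absNorm v.asIdeal with hq
      set av := aV (cv (a : K) (b : K)) v
      set ev := eV (cv (a : K) (b : K)) v
      obtain ⟨m, hm⟩ := hrat (Polynomial.C ((q : ℤ) ^ 2) - Polynomial.C (av * q) * Polynomial.X +
        Polynomial.C ev * Polynomial.X ^ 2) (gen v)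
      refine ⟨(m : ℚ) / ((q : ℚ) ^ 2) ^ A.card, ?_⟩
      push_cast
      rw [← hm, eq_div_iff (pow_ne_zero _ (pow_ne_zero _ hqv)),
        ← Finset.prod_const, ← Finset.prod_mul_distrib]
      refine Finset.prod_congr rfl fun ψ _ => ?_
      rw [tpol_eq (χ ψ (gen v)) v 1 (hloc v).1 (hloc v).2, Complex.cpow_neg_one]
      simp only [map_add, map_sub, map_mul, map_pow, Polynomial.aeval_X,
        eq_intCast, map_intCast, map_natCast]
      push_cast
      rw [← hq]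
      field_simp
      ring
    choose r hr using hv
    refine ⟨∏ v ∈ B, r v, ?_⟩
    rw [hQd]
    simp only [hr]
    push_cast
    rfl
  have hrQ0 : rQ ≠ 0 := by
    rintro rfl
    rw [Rat.cast_zero] at hrQ
    exact hQ1 hrQ
  -- the comparison for `Re s > 2`
  have hcomp : ∀ s : ℂ, 2 < s.re → E.LSeries s * P s = G s * Q s := by
    intro s hs
    have h1 := (LSeries_hasProd E (s := s) hs).2
    have h2 : HasProd (fun v : HeightOneSpectrum (𝓞 K) => ∏ u : Ab v, (pol E u.1 s)⁻¹)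
        (E.LSeries s) := by
      let e : (Σ v : HeightOneSpectrum (𝓞 K), Ab v) ≃ HeightOneSpectrum (𝓞 F) :=
        { toFun := fun x => x.2.1
          invFun := fun u => ⟨low u, ⟨u, rfl⟩⟩
          left_inv := by
            rintro ⟨v, u, hu⟩
            have hv : low (K := K) u = v := HeightOneSpectrum.ext hu
            subst hv
            rfl
          right_inv := fun u => rfl }
      have h3 := e.hasProd_iff.2 h1
      refine h3.sigma fun v => ?_
      exact hasProd_fintype _ (.unconditional _)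
    have h3 := g2 s hs
    have h4 : HasProd (fun v : HeightOneSpectrum (𝓞 K) =>
        if v ∈ B then ∏ u : Ab v, pol E u.1 s else 1) (P s) := by
      have h6 := hasProd_prod_of_ne_finset_one (L := .unconditional _) (s := B)
        (f := fun v : HeightOneSpectrum (𝓞 K) =>
          if v ∈ B then ∏ u : Ab v, pol E u.1 s else 1) (fun v hv => if_neg hv)
      rw [Finset.prod_congr rfl (fun v hv => if_pos hv)] at h6
      exact h6
    have h5 : HasProd (fun v : HeightOneSpectrum (𝓞 K) =>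
        if v ∈ B then ∏ ψ ∈ A, tpol n c (χ ψ (gen v)) v s else 1) (Q s) := by
      have h6 := hasProd_prod_of_ne_finset_one (L := .unconditional _) (s := B)
        (f := fun v : HeightOneSpectrum (𝓞 K) =>
          if v ∈ B then ∏ ψ ∈ A, tpol n c (χ ψ (gen v)) v s else 1) (fun v hv => if_neg hv)
      rw [Finset.prod_congr rfl (fun v hv => if_pos hv)] at h6
      exact h6
    refine (h2.mul h4).unique ((h3.mul h5).congr_fun fun v => ?_)
    have hs2 : (1 / 2 : ℝ) < s.re := by linarith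
    by_cases hv : v ∈ B
    · rw [if_pos hv, if_pos hv, Finset.prod_inv_distrib, Finset.prod_congr rfl fun ψ _ =>
        efx_eq (n := n) (c := c) (χ ψ) v s, Finset.prod_inv_distrib,
        inv_mul_cancel₀ (Finset.prod_ne_zero_iff.2 fun u _ => pol_ne2 E u.1 hs),
        inv_mul_cancel₀ (Finset.prod_ne_zero_iff.2 fun ψ _ =>
          tpol_ne (hchn ψ _) hs2 (hloc v).1 (hloc v).2 (hHK v))]
    · rw [if_neg hv, if_neg hv, mul_one, mul_one]
      have hdv : d' ∉ v.asIdeal := fun h0 => hv ((hBm v).2 h0)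
      exact (hkey v s hdv hs2).symm
  have hx1 : ∀ x : ℂ, x * P 1 = G 1 * Q 1 ↔ x = ((rQ / rP : ℚ) : ℂ) * ∏ ψ ∈ A, Gp ψ 1 := by
    intro x
    have h1 : G 1 = ∏ ψ ∈ A, Gp ψ 1 := rfl
    have h2 : (rP : ℂ) ≠ 0 := by exact_mod_cast hrP0
    rw [hrP, hrQ, h1, ← eq_div_iff h2]
    push_cast
    constructor
    · intro h
      rw [h]
      ring
    · intro h
      rw [h]
      ring
  refine ⟨rQ / rP, div_ne_zero hrQ0 hrP0, fun x => ?_⟩
  rw [← hx1]
  have h3m : (3 : ℂ) ∈ {s : ℂ | (2 : ℝ) < s.re} := by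
    show (2 : ℝ) < (3 : ℂ).re
    norm_num
  have h3n : {s : ℂ | (2 : ℝ) < s.re} ∈ 𝓝 (3 : ℂ) :=
    (isOpen_lt continuous_const Complex.continuous_re).mem_nhds h3m
  constructor
  · -- uniqueness
    rintro ⟨U, Φ, hUo, hUc, hUs, h1U, hΦ, hΦL, rfl⟩
    have h1 : AnalyticOnNhd ℂ (fun s => Φ s * P s) U :=
      fun s hs => (hΦ s hs).mul (hPdiff.analyticAt s)
    have h2 : AnalyticOnNhd ℂ (fun s => G s * Q s) U :=
      fun s _ => (g1.analyticAt s).mul (hQdiff.analyticAt s)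
    have h4 : (fun s => Φ s * P s) =ᶠ[𝓝 (3 : ℂ)] fun s => G s * Q s := by
      filter_upwards [h3n] with s hs
      rw [hΦL s hs]
      exact hcomp s hs
    exact h1.eqOn_of_preconnected_of_eventuallyEq h2 hUc.isPreconnected (hUs h3m) h4 h1U
  · -- existence
    intro hx
    set L : ℂ → ℂ := fun s => G s * Q s / P s with hL
    have hmer : Meromorphic L := fun s =>
      (((g1.analyticAt s).mul (hQdiff.analyticAt s)).meromorphicAt).div
        ((hPdiff.analyticAt s).meromorphicAt)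
    have hLan : ∀ s : ℂ, P s ≠ 0 → AnalyticAt ℂ L s := fun s hs =>
      ((g1.analyticAt s).mul (hQdiff.analyticAt s)).div (hPdiff.analyticAt s) hs
    refine ⟨{s | AnalyticAt ℂ L s}, L, isOpen_analyticAt ℂ L, ?_, ?_, hLan 1 hP1,
      fun s hs => hs, ?_, ?_⟩
    · have h5 : IsConnected ({s : ℂ | AnalyticAt ℂ L s}ᶜ)ᶜ :=
        Set.Countable.isConnected_compl_of_one_lt_rank (by simp) hmer.countable_compl_analyticAt
      rwa [compl_compl] at h5
    · intro s hs
      exact hLan s (hPne s hs)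
    · intro s hs
      show G s * Q s / P s = _
      rw [div_eq_iff (hPne s hs), hcomp s hs]
    · show G 1 * Q 1 / P 1 = x
      rw [div_eq_iff hP1, hx]

end Pool.Agent.L7h60.TW
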